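import Pool.Agent.H73.CBE.Stmts

/-!
# Board cbe, row EUL: derivatives of homogeneous maps
-/

set_option autoImplicit false

open Set Filter Topology

namespace Pool.CBE

theorem eul_thm : EULStmt := by
  intro n d f hd hf hhom
  have hdf : Differentiable ℂ f := hf.differentiable (by norm_num)
  constructor
  · intro z
    have e1 : HasDerivAt (fun c : ℂ => c • z) z 1 := by
      simpa using (hasDerivAt_id (1 : ℂ)).smul_const z
    have e2 : HasFDerivAt f (fderiv ℂ f z) ((fun c : ℂ => c • z) 1) := by
      simp only [one_smul]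
      exact (hdf z).hasFDerivAt
    have e3 := e2.comp_hasDerivAt (1 : ℂ) e1
    have e4 : HasDerivAt (fun c : ℂ => c ^ d • f z) ((d : ℂ) • f z) 1 := by
      have e5 := (hasDerivAt_pow d (1 : ℂ)).smul_const (f z)
      simpa using e5
    have e6 : (f ∘ fun c : ℂ => c • z) = fun c : ℂ => c ^ d • f z := by
      funext c
      exact hhom c z
    rw [e6] at e3
    exact e3.unique e4
  · intro c z v hc
    have e1 : HasFDerivAt (fun y : E n => c • y) (c • ContinuousLinearMap.id ℂ (E n)) z :=
      (hasFDerivAt_id z).const_smul c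
    have e2 : HasFDerivAt f (fderiv ℂ f (c • z)) ((fun y : E n => c • y) z) :=
      (hdf (c • z)).hasFDerivAt
    have e3 := e2.comp z e1
    have e4 : HasFDerivAt (fun y : E n => c ^ d • f y) (c ^ d • fderiv ℂ f z) z :=
      ((hdf z).hasFDerivAt).const_smul (c ^ d)
    have e5 : (f ∘ fun y : E n => c • y) = fun y : E n => c ^ d • f y := by
      funext y
      exact hhom c y
    rw [e5] at e3
    have e6 := e3.unique e4
    have e7 := DFunLike.congr_fun e6 v
    have e8 : c • fderiv ℂ f (c • z) v = c ^ d • fderiv ℂ f z v := by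
      simpa using e7
    obtain ⟨m, rfl⟩ : ∃ m, d = m + 1 := ⟨d - 1, by omega⟩
    rw [Nat.add_sub_cancel, pow_succ', mul_smul] at *
    exact smul_right_injective _ hc e8

end Pool.CBE
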