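import Pool.Agent.H73.CBE.Stmts

/-!
# Board cbe, row FEQ: the functional equation of `S`
-/

set_option autoImplicit false

open Set Filter Topology

namespace Pool.CBE

theorem feq_thm (h1 : UBDStmt) (h2 : ITRStmt) : FEQStmt := by
  intro n f d η C θ a hH
  obtain ⟨⟨L, hL, hu⟩, huc⟩ := h1 n f d η C θ a hH
  have hit := h2 n f d η C θ a hH
  have hd2 : (2 : ℝ) ≤ d := by exact_mod_cast hH.hd
  have hb : ∀ z : E n, z ≠ 0 → ∀ k : ℕ, ‖u f d (f^[k] z) / (d : ℝ) ^ (k + 1)‖ ≤ L / 2 / 2 ^ k := by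
    intro z hz k
    have h3 := hu (f^[k] z) ((hit k).2.1 z hz)
    have h4 : (0 : ℝ) < (d : ℝ) ^ (k + 1) := by positivity
    rw [Real.norm_eq_abs, abs_div, abs_of_pos h4, div_div, ← pow_succ']
    have h5 : (2 : ℝ) ^ (k + 1) ≤ (d : ℝ) ^ (k + 1) := pow_le_pow_left₀ (by norm_num) hd2 _
    calc |u f d (f^[k] z)| / (d : ℝ) ^ (k + 1) ≤ L / (d : ℝ) ^ (k + 1) :=
          div_le_div_of_nonneg_right h3 h4.le
      _ ≤ L / 2 ^ (k + 1) := div_le_div_of_nonneg_left hL.le (by positivity) h5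
  have hsum : ∀ z : E n, z ≠ 0 → Summable fun k : ℕ => u f d (f^[k] z) / (d : ℝ) ^ (k + 1) :=
    fun z hz => Summable.of_norm_bounded (hasSum_geometric_two' L).summable (hb z hz)
  refine ⟨⟨L, hL, fun z hz => ?_⟩, fun z hz => ⟨?_, fun c hc => ?_⟩⟩
  · have h3 := tsum_of_norm_bounded (hasSum_geometric_two' L) (hb z hz)
    exact h3
  · unfold S
    rw [(hsum z hz).tsum_eq_zero_add]
    congr 1
    · rw [Function.iterate_zero_apply, zero_add, pow_one]
    · rw [← tsum_div_const]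
      refine tsum_congr fun k => ?_
      rw [Function.iterate_succ_apply, div_div, ← pow_succ]
  · unfold S
    refine tsum_congr fun k => ?_
    rw [(hit k).2.2.1 c z, huc _ _ (pow_ne_zero _ hc)]

end Pool.CBE
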